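import Pool.Agent.Y953.SQ.Root

/-!
# Sums of monomials with coefficients in a sum of products
-/

set_option autoImplicit false
set_option maxHeartbeats 400000

namespace Pool.Agent.Y953.SQ

open Finset Polynomial

variable {A B Γ Γ' : Type} [Fintype A] [Fintype B] [Fintype Γ] [Fintype Γ']

theorem regroup1 (P : A → ℝ[X]) (Q : B → ℝ[X]) (u : Γ → A → ℝ) (h : Γ → B → ℝ) :
    ∑ a, ∑ b, C (∑ γ, u γ a * h γ b) * P a * Q b
      = ∑ γ, (∑ a, C (u γ a) * P a) * (∑ b, C (h γ b) * Q b) := by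
  have h1 : ∀ γ, (∑ a, C (u γ a) * P a) * (∑ b, C (h γ b) * Q b)
      = ∑ a, ∑ b, C (u γ a * h γ b) * P a * Q b := by
    intro γ
    rw [Finset.sum_mul_sum]
    refine Finset.sum_congr rfl (fun a _ => Finset.sum_congr rfl (fun b _ => ?_))
    rw [C_mul]
    ring
  have h2 : ∑ γ, (∑ a, C (u γ a) * P a) * (∑ b, C (h γ b) * Q b)
      = ∑ γ, ∑ a, ∑ b, C (u γ a * h γ b) * P a * Q b :=
    Finset.sum_congr rfl (fun γ _ => h1 γ)
  rw [h2, Finset.sum_comm (s := (univ : Finset Γ))]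
  refine Finset.sum_congr rfl (fun a _ => ?_)
  rw [Finset.sum_comm (s := (univ : Finset Γ))]
  refine Finset.sum_congr rfl (fun b _ => ?_)
  rw [map_sum, Finset.sum_mul, Finset.sum_mul]

theorem regroup (P : A → ℝ[X]) (Q : B → ℝ[X]) (u : Γ → A → ℝ) (h : Γ → B → ℝ)
    (v : Γ' → B → ℝ) (h' : Γ' → A → ℝ) (e : A → B → ℝ) (F : A → B → ℝ)
    (hF : ∀ a b, F a b = ∑ γ, u γ a * h γ b + ∑ γ, v γ b * h' γ a + e a b) :
    ∑ a, ∑ b, C (F a b) * P a * Q b
      = ∑ γ, (∑ a, C (u γ a) * P a) * (∑ b, C (h γ b) * Q b)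
        + (∑ γ, (∑ b, C (v γ b) * Q b) * (∑ a, C (h' γ a) * P a)
        + ∑ x : A × B, (C (e x.1 x.2) * P x.1) * (if e x.1 x.2 = 0 then 0 else Q x.2)) := by
  rw [← regroup1 P Q u h, ← regroup1 Q P v h', Fintype.sum_prod_type,
    Finset.sum_comm (s := (univ : Finset B)), ← Finset.sum_add_distrib, ← Finset.sum_add_distrib]
  refine Finset.sum_congr rfl (fun a _ => ?_)
  rw [← Finset.sum_add_distrib, ← Finset.sum_add_distrib]
  refine Finset.sum_congr rfl (fun b _ => ?_)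
  rw [hF a b, C_add, C_add]
  split_ifs with h0
  · rw [h0]
    simp only [map_zero, zero_mul, add_zero, mul_zero]
    ring
  · ring

theorem bound_abs (κ : ℝ) (hκ : 0 < κ)
    (H : ∀ f : ℝ[X], f ≠ 0 → ∀ (s : ℕ) (c : Fin s → ℝ) (g : Fin s → ℝ[X]),
      f = ∑ i, C (c i) * g i ^ 2 →
        (f.roots.toFinset.card : ℝ) ≤ κ * ((∑ i, (g i).support.card : ℕ) : ℝ))
    (P : A → ℝ[X]) (Q : B → ℝ[X]) (hP : ∀ a, (P a).support.card ≤ 1)
    (hQ : ∀ b, (Q b).support.card ≤ 1) (u : Γ → A → ℝ) (h : Γ → B → ℝ)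
    (v : Γ' → B → ℝ) (h' : Γ' → A → ℝ) (e : A → B → ℝ) (F : A → B → ℝ)
    (hF : ∀ a b, F a b = ∑ γ, u γ a * h γ b + ∑ γ, v γ b * h' γ a + e a b)
    (hne : ∑ a, ∑ b, C (F a b) * P a * Q b ≠ 0) :
    ((∑ a, ∑ b, C (F a b) * P a * Q b).roots.toFinset.card : ℝ) ≤
      κ * (2 * ∑ γ, ((univ.filter fun a => u γ a ≠ 0).card : ℝ)
        + 2 * ∑ γ, ((univ.filter fun b => h γ b ≠ 0).card : ℝ)
        + 2 * ∑ γ, ((univ.filter fun b => v γ b ≠ 0).card : ℝ)
        + 2 * ∑ γ, ((univ.filter fun a => h' γ a ≠ 0).card : ℝ)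
        + 4 * ∑ a, ∑ b, (if e a b = 0 then (0 : ℝ) else 1)) := by
  classical
  let p : Γ ⊕ Γ' ⊕ (A × B) → ℝ[X] := Sum.elim
    (fun γ => ∑ a, C (u γ a) * P a)
    (Sum.elim (fun γ => ∑ b, C (v γ b) * Q b) (fun x => C (e x.1 x.2) * P x.1))
  let q : Γ ⊕ Γ' ⊕ (A × B) → ℝ[X] := Sum.elim
    (fun γ => ∑ b, C (h γ b) * Q b)
    (Sum.elim (fun γ => ∑ a, C (h' γ a) * P a) (fun x => if e x.1 x.2 = 0 then 0 else Q x.2))
  have hsum : ∑ a, ∑ b, C (F a b) * P a * Q b = ∑ j, p j * q j := by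
    rw [regroup P Q u h v h' e F hF, Fintype.sum_sum_type, Fintype.sum_sum_type]
    rfl
  refine le_trans (roots_le_of_prods κ hκ H p q _ hne hsum)
    (mul_le_mul_of_nonneg_left ?_ hκ.le)
  rw [Fintype.sum_sum_type, Fintype.sum_sum_type]
  simp only [p, q, Sum.elim_inl, Sum.elim_inr]
  have e1 : ∀ γ : Γ, 2 * (((∑ a, C (u γ a) * P a).support.card : ℝ)
      + (∑ b, C (h γ b) * Q b).support.card)
      ≤ 2 * ((univ.filter fun a => u γ a ≠ 0).card : ℝ)
        + 2 * ((univ.filter fun b => h γ b ≠ 0).card : ℝ) := by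
    intro γ
    have i1 : ((∑ a, C (u γ a) * P a).support.card : ℝ)
        ≤ ((univ.filter fun a => u γ a ≠ 0).card : ℝ) := by
      exact_mod_cast card_supp_sum (u γ) P hP
    have i2 : ((∑ b, C (h γ b) * Q b).support.card : ℝ)
        ≤ ((univ.filter fun b => h γ b ≠ 0).card : ℝ) := by
      exact_mod_cast card_supp_sum (h γ) Q hQ
    linarith
  have e2 : ∀ γ : Γ', 2 * (((∑ b, C (v γ b) * Q b).support.card : ℝ)
      + (∑ a, C (h' γ a) * P a).support.card)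
      ≤ 2 * ((univ.filter fun b => v γ b ≠ 0).card : ℝ)
        + 2 * ((univ.filter fun a => h' γ a ≠ 0).card : ℝ) := by
    intro γ
    have i1 : ((∑ b, C (v γ b) * Q b).support.card : ℝ)
        ≤ ((univ.filter fun b => v γ b ≠ 0).card : ℝ) := by
      exact_mod_cast card_supp_sum (v γ) Q hQ
    have i2 : ((∑ a, C (h' γ a) * P a).support.card : ℝ)
        ≤ ((univ.filter fun a => h' γ a ≠ 0).card : ℝ) := by
      exact_mod_cast card_supp_sum (h' γ) P hP
    linarith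
  have e3 : ∀ x : A × B, 2 * (((C (e x.1 x.2) * P x.1).support.card : ℝ)
      + ((if e x.1 x.2 = 0 then 0 else Q x.2 : ℝ[X]).support.card : ℝ))
      ≤ 4 * (if e x.1 x.2 = 0 then (0 : ℝ) else 1) := by
    intro x
    split_ifs with h0
    · rw [h0]
      simp
    · have i1 : ((C (e x.1 x.2) * P x.1).support.card : ℝ) ≤ 1 := by
        have : (C (e x.1 x.2) * P x.1).support.card ≤ 1 := by
          refine le_trans (Finset.card_le_card ?_) (hP x.1)
          intro n hn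
          rw [Polynomial.mem_support_iff] at hn ⊢
          rw [Polynomial.coeff_C_mul] at hn
          exact right_ne_zero_of_mul hn
        exact_mod_cast this
      have i2 : ((Q x.2).support.card : ℝ) ≤ 1 := by exact_mod_cast hQ x.2
      linarith
  have s1 := Finset.sum_le_sum (s := (univ : Finset Γ)) (fun γ _ => e1 γ)
  have s2 := Finset.sum_le_sum (s := (univ : Finset Γ')) (fun γ _ => e2 γ)
  have s3 := Finset.sum_le_sum (s := (univ : Finset (A × B))) (fun x _ => e3 x)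
  have r1 : ∑ γ : Γ, (2 * ((univ.filter fun a => u γ a ≠ 0).card : ℝ)
        + 2 * ((univ.filter fun b => h γ b ≠ 0).card : ℝ))
      = 2 * ∑ γ, ((univ.filter fun a => u γ a ≠ 0).card : ℝ)
        + 2 * ∑ γ, ((univ.filter fun b => h γ b ≠ 0).card : ℝ) := by
    rw [Finset.sum_add_distrib, Finset.mul_sum, Finset.mul_sum]
  have r2 : ∑ γ : Γ', (2 * ((univ.filter fun b => v γ b ≠ 0).card : ℝ)
        + 2 * ((univ.filter fun a => h' γ a ≠ 0).card : ℝ))
      = 2 * ∑ γ, ((univ.filter fun b => v γ b ≠ 0).card : ℝ)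
        + 2 * ∑ γ, ((univ.filter fun a => h' γ a ≠ 0).card : ℝ) := by
    rw [Finset.sum_add_distrib, Finset.mul_sum, Finset.mul_sum]
  have r3 : ∑ x : A × B, 4 * (if e x.1 x.2 = 0 then (0 : ℝ) else 1)
      = 4 * ∑ a, ∑ b, (if e a b = 0 then (0 : ℝ) else 1) := by
    rw [← Finset.mul_sum, Fintype.sum_prod_type]
  rw [r1] at s1
  rw [r2] at s2
  rw [r3] at s3
  linarith

end Pool.Agent.Y953.SQ
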