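import Pool.Agent.Y953.SQ.Kern

/-!
# Counting
-/

set_option autoImplicit false

namespace Pool.Agent.Y953.SQ

open Finset

theorem pow_card_filter {X : Type} (d : ℕ) (P : X → Prop) [DecidablePred P] (w : ℝ)
    (x : Fin d → X) :
    w ^ (univ.filter fun i => P (x i)).card = ∏ i, (if P (x i) then w else 1) := by
  rw [Finset.prod_ite]
  simp

/-- few points have many coordinates in `P` -/
theorem cnt_ge {X : Type} [Fintype X] (d m : ℕ) (P : X → Prop) [DecidablePred P] (w : ℝ)
    (hw : 1 ≤ w) :
    ((univ.filter fun x : Fin d → X => m ≤ (univ.filter fun i => P (x i)).card).card : ℝ) * w ^ m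
      ≤ (∑ x, if P x then w else 1) ^ d := by
  classical
  rw [Fintype.sum_pow]
  have h1 : ((univ.filter fun x : Fin d → X => m ≤ (univ.filter fun i => P (x i)).card).card : ℝ)
      * w ^ m = ∑ x ∈ (univ.filter fun x : Fin d → X =>
        m ≤ (univ.filter fun i => P (x i)).card), w ^ m := by
    rw [Finset.sum_const, nsmul_eq_mul]
  rw [h1]
  refine le_trans (Finset.sum_le_sum (g := fun x : Fin d → X => ∏ i, (if P (x i) then w else 1))
    ?_) ?_
  · intro x hx
    rw [Finset.mem_filter] at hx
    rw [← pow_card_filter]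
    exact pow_le_pow_right₀ hw hx.2
  · refine Finset.sum_le_sum_of_subset_of_nonneg (Finset.filter_subset _ _) ?_
    intro x _ _
    refine Finset.prod_nonneg ?_
    intro i _
    split_ifs
    · linarith
    · norm_num

theorem sum_sum_prod {X Y : Type} [Fintype X] [Fintype Y] (d : ℕ) (g : X → Y → ℝ) :
    ∑ a : Fin d → X, ∑ b : Fin d → Y, ∏ i, g (a i) (b i) = (∑ x, ∑ y, g x y) ^ d := by
  classical
  rw [Fintype.sum_pow]
  refine Finset.sum_congr rfl ?_
  intro a _
  rw [Finset.prod_univ_sum, Fintype.piFinset_univ]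

/-- few pairs have few coordinates in `G` -/
theorem cnt_lt {X Y : Type} [Fintype X] [Fintype Y] (d m : ℕ) (G : X → Y → Prop)
    [∀ a b, Decidable (G a b)] (w : ℝ) (hw0 : 0 < w) (hw : w ≤ 1) :
    (∑ a : Fin d → X, ∑ b : Fin d → Y,
      (if (univ.filter fun i => G (a i) (b i)).card < m then (1 : ℝ) else 0)) * w ^ m
      ≤ (∑ x, ∑ y, if G x y then w else 1) ^ d := by
  classical
  rw [← sum_sum_prod, Finset.sum_mul]
  refine Finset.sum_le_sum ?_
  intro a _
  rw [Finset.sum_mul]
  refine Finset.sum_le_sum ?_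
  intro b _
  have h1 : ∏ i, (if G (a i) (b i) then w else 1) = w ^ (univ.filter fun i => G (a i) (b i)).card := by
    rw [Finset.prod_ite]
    simp
  rw [h1]
  split_ifs with h
  · rw [one_mul]
    exact pow_le_pow_of_le_one hw0.le hw h.le
  · rw [zero_mul]
    positivity

theorem chi_nonneg {R : Type} [DecidableEq R] (z γ a : R) : 0 ≤ chi z γ a := by
  unfold chi
  split_ifs <;> norm_num

/-- the total size of the supports of the characteristic functions -/
theorem cnt_chi (d : ℕ) (z : Fin 7) :
    ∑ γ : Fin d → Fin 7, ((univ.filter fun a : Fin d → Fin 7 => ∏ i, chi z (γ i) (a i) ≠ 0).card : ℝ)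
      = 13 ^ d := by
  classical
  have h1 : ∀ γ : Fin d → Fin 7,
      ((univ.filter fun a : Fin d → Fin 7 => ∏ i, chi z (γ i) (a i) ≠ 0).card : ℝ)
        = ∑ a : Fin d → Fin 7, ∏ i, chi z (γ i) (a i) := by
    intro γ
    rw [Finset.card_filter]
    push_cast
    refine Finset.sum_congr rfl ?_
    intro a _
    by_cases h : ∀ i, chi z (γ i) (a i) = 1
    · rw [Finset.prod_congr rfl (fun i _ => h i)]
      simp
    · push Not at h
      obtain ⟨i, hi⟩ := h
      have h0 : chi z (γ i) (a i) = 0 := by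
        unfold chi at hi ⊢
        split_ifs at hi ⊢ <;> simp_all
      rw [Finset.prod_eq_zero (Finset.mem_univ i) h0]
      simp
  rw [Finset.sum_congr rfl (fun γ _ => h1 γ), sum_sum_prod]
  congr 1
  have h2 : ∀ γ : Fin 7, ∑ a, chi z γ a = if γ = z then 7 else 1 := by
    intro γ
    unfold chi
    split_ifs with h
    · simp
    · simp
  rw [Finset.sum_congr rfl (fun γ _ => h2 γ)]
  rw [← Finset.add_sum_erase _ _ (Finset.mem_univ z)]
  rw [if_pos rfl]
  rw [Finset.sum_congr rfl (g := fun _ => (1 : ℝ))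
    (fun γ hγ => if_neg (Finset.mem_erase.1 hγ).1)]
  rw [Finset.sum_const, Finset.card_erase_of_mem (Finset.mem_univ z)]
  simp
  norm_num

end Pool.Agent.Y953.SQ
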