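import Mathlib

/-!
# A polynomial with all roots real, and products versus squares
-/

set_option autoImplicit false

namespace Pool.Agent.Y953.SQ

open Finset Polynomial

/-- `∑_{e < M} (-1)^e M^(-e^2) X^e` -/
noncomputable def TF (M : ℕ) : ℝ[X] :=
  ∑ e ∈ range M, C ((-1 : ℝ) ^ e / (M : ℝ) ^ (e ^ 2)) * X ^ e

theorem TF_sign (M : ℕ) (hM : 1 ≤ M) (j : ℕ) (hj : j < M) :
    0 < (-1 : ℝ) ^ j * (TF M).eval ((M : ℝ) ^ (2 * j)) := by
  have hl : (1 : ℝ) ≤ (M : ℝ) := by exact_mod_cast hM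
  have hl0 : (0 : ℝ) < (M : ℝ) := by linarith
  unfold TF
  rw [Polynomial.eval_finsetSum, Finset.mul_sum,
    ← Finset.add_sum_erase _ _ (Finset.mem_range.2 hj)]
  have hj2 : (-1 : ℝ) ^ j * (C ((-1 : ℝ) ^ j / (M : ℝ) ^ (j ^ 2)) * X ^ j).eval
      ((M : ℝ) ^ (2 * j)) = (M : ℝ) ^ (j ^ 2) := by
    rw [Polynomial.eval_mul, Polynomial.eval_C, Polynomial.eval_pow, Polynomial.eval_X]
    have h1 : (-1 : ℝ) ^ j * (-1 : ℝ) ^ j = 1 := by
      rw [← mul_pow]; norm_num
    have h2 : ((M : ℝ) ^ (2 * j)) ^ j = (M : ℝ) ^ (j ^ 2) * (M : ℝ) ^ (j ^ 2) := by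
      rw [← pow_mul, ← pow_add]
      congr 1
      ring
    rw [h2]
    have h3 : (M : ℝ) ^ (j ^ 2) ≠ 0 := pow_ne_zero _ hl0.ne'
    field_simp
    linear_combination h1
  rw [hj2]
  have hother : ∀ e ∈ (range M).erase j,
      -((M : ℝ) ^ (j ^ 2) / M) ≤ (-1 : ℝ) ^ j * (C ((-1 : ℝ) ^ e / (M : ℝ) ^ (e ^ 2)) * X ^ e).eval
      ((M : ℝ) ^ (2 * j)) := by
    intro e he
    have hne : e ≠ j := (Finset.mem_erase.1 he).1
    rw [Polynomial.eval_mul, Polynomial.eval_C, Polynomial.eval_pow, Polynomial.eval_X]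
    have hk : ((M : ℝ) ^ (2 * j)) ^ e / (M : ℝ) ^ (e ^ 2) ≤ (M : ℝ) ^ (j ^ 2) / M := by
      rw [div_le_div_iff₀ (pow_pos hl0 _) hl0, ← pow_mul, ← pow_succ, ← pow_add]
      refine pow_le_pow_right₀ hl ?_
      have : 2 * j * e + 1 ≤ j ^ 2 + e ^ 2 := by
        zify
        have hz : (e : ℤ) - j ≠ 0 := by
          intro h0
          apply hne
          have : (e : ℤ) = j := by linarith
          exact_mod_cast this
        have h1 : 1 ≤ ((e : ℤ) - j) ^ 2 := by
          have : 0 < ((e : ℤ) - j) ^ 2 := by positivity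
          linarith
        nlinarith
      exact this
    have hs : |(-1 : ℝ) ^ j * ((-1 : ℝ) ^ e / (M : ℝ) ^ (e ^ 2) * ((M : ℝ) ^ (2 * j)) ^ e)|
        = ((M : ℝ) ^ (2 * j)) ^ e / (M : ℝ) ^ (e ^ 2) := by
      rw [abs_mul, abs_mul, abs_div]
      simp only [abs_pow, abs_neg, abs_one, one_pow, one_mul, Nat.abs_cast]
      ring
    have := neg_abs_le ((-1 : ℝ) ^ j * ((-1 : ℝ) ^ e / (M : ℝ) ^ (e ^ 2) *
      ((M : ℝ) ^ (2 * j)) ^ e))
    rw [hs] at this
    linarith
  have hsum := Finset.card_nsmul_le_sum _ _ _ hother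
  have hcard : ((range M).erase j).card = M - 1 := by
    rw [Finset.card_erase_of_mem (Finset.mem_range.2 hj), Finset.card_range]
  rw [hcard, nsmul_eq_mul] at hsum
  have hc2 : ((M - 1 : ℕ) : ℝ) = (M : ℝ) - 1 := by
    push_cast [Nat.cast_sub hM]
    ring
  rw [hc2] at hsum
  have hp : 0 < (M : ℝ) ^ (j ^ 2) / M := by positivity
  have h5 : (M : ℝ) ^ (j ^ 2) = (M : ℝ) * ((M : ℝ) ^ (j ^ 2) / M) := by
    field_simp
  nlinarith

theorem TF_ne (M : ℕ) (hM : 1 ≤ M) : TF M ≠ 0 := by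
  intro h0
  have := TF_sign M hM 0 hM
  rw [h0] at this
  simp at this

theorem TF_roots (M : ℕ) (hM : 2 ≤ M) : M - 1 ≤ (TF M).roots.toFinset.card := by
  classical
  have hl : (1 : ℝ) < (M : ℝ) := by exact_mod_cast hM
  have hroot : ∀ j : ℕ, ∃ x : ℝ, j < M - 1 →
      ((M : ℝ) ^ (2 * j) < x ∧ x < (M : ℝ) ^ (2 * (j + 1)) ∧ (TF M).eval x = 0) := by
    intro j
    by_cases hj : j < M - 1
    · have h1 := TF_sign M (by omega) j (by omega)
      have h2 := TF_sign M (by omega) (j + 1) (by omega)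
      have hle : (M : ℝ) ^ (2 * j) ≤ (M : ℝ) ^ (2 * (j + 1)) :=
        pow_le_pow_right₀ hl.le (by omega)
      have hcont : ContinuousOn (fun x => (-1 : ℝ) ^ j * (TF M).eval x)
          (Set.Icc ((M : ℝ) ^ (2 * j)) ((M : ℝ) ^ (2 * (j + 1)))) :=
        (continuous_const.mul (TF M).continuous).continuousOn
      have hmem : (0 : ℝ) ∈ Set.Ioo ((-1 : ℝ) ^ j * (TF M).eval ((M : ℝ) ^ (2 * (j + 1))))
          ((-1 : ℝ) ^ j * (TF M).eval ((M : ℝ) ^ (2 * j))) := by
        refine ⟨?_, h1⟩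
        rw [pow_succ] at h2
        linarith
      obtain ⟨x, hx, hx0⟩ := intermediate_value_Ioo' hle hcont hmem
      refine ⟨x, fun _ => ⟨hx.1, hx.2, ?_⟩⟩
      have hne : (-1 : ℝ) ^ j ≠ 0 := pow_ne_zero _ (by norm_num)
      exact (mul_eq_zero.1 hx0).resolve_left hne
    · exact ⟨0, fun h => absurd h hj⟩
  choose ξ hξ using hroot
  have hmaps : ∀ j ∈ range (M - 1), ξ j ∈ (TF M).roots.toFinset := by
    intro j hj
    rw [Multiset.mem_toFinset, Polynomial.mem_roots (TF_ne M (by omega))]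
    exact (hξ j (Finset.mem_range.1 hj)).2.2
  have hmono : ∀ i j : ℕ, i < j → j < M - 1 → ξ i < ξ j := by
    intro i j hij hj
    have h1 := (hξ i (by omega)).2.1
    have h2 := (hξ j hj).1
    have h3 : (M : ℝ) ^ (2 * (i + 1)) ≤ (M : ℝ) ^ (2 * j) :=
      pow_le_pow_right₀ hl.le (by omega)
    linarith
  have hinj : Set.InjOn ξ (range (M - 1) : Finset ℕ) := by
    intro i hi j hj hij
    have hi' := Finset.mem_range.1 (Finset.mem_coe.1 hi)
    have hj' := Finset.mem_range.1 (Finset.mem_coe.1 hj)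
    rcases lt_trichotomy i j with h | h | h
    · exact absurd hij (hmono i j h hj').ne
    · exact h
    · exact absurd hij (hmono j i h hi').ne'
  have := Finset.card_le_card_of_injOn ξ hmaps hinj
  rwa [Finset.card_range] at this

theorem card_supp_add (p q : ℝ[X]) : (p + q).support.card ≤ p.support.card + q.support.card :=
  le_trans (Finset.card_le_card Polynomial.support_add) (Finset.card_union_le _ _)

theorem card_supp_sub (p q : ℝ[X]) : (p - q).support.card ≤ p.support.card + q.support.card := by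
  rw [sub_eq_add_neg]
  refine le_trans (card_supp_add _ _) ?_
  rw [Polynomial.support_neg]

/-- a linear bound for sums of squares gives a linear bound for sums of products -/
theorem roots_le_of_prods (κ : ℝ) (hκ : 0 < κ)
    (H : ∀ f : ℝ[X], f ≠ 0 → ∀ (s : ℕ) (c : Fin s → ℝ) (g : Fin s → ℝ[X]),
      f = ∑ i, C (c i) * g i ^ 2 →
        (f.roots.toFinset.card : ℝ) ≤ κ * ((∑ i, (g i).support.card : ℕ) : ℝ))
    {J : Type} [Fintype J] (p q : J → ℝ[X]) (F : ℝ[X]) (hF0 : F ≠ 0)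
    (hF : F = ∑ j, p j * q j) :
    (F.roots.toFinset.card : ℝ) ≤ κ * ∑ j, 2 * (((p j).support.card : ℝ) + (q j).support.card) := by
  classical
  let eq := Fintype.equivFin (J ⊕ J)
  let c : J ⊕ J → ℝ := Sum.elim (fun _ => 1 / 4) (fun _ => -1 / 4)
  let g : J ⊕ J → ℝ[X] := Sum.elim (fun j => p j + q j) (fun j => p j - q j)
  have h1 : F = ∑ i : Fin (Fintype.card (J ⊕ J)), C (c (eq.symm i)) * g (eq.symm i) ^ 2 := by
    rw [Equiv.sum_comp eq.symm (fun x => C (c x) * g x ^ 2), Fintype.sum_sum_type, hF,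
      ← Finset.sum_add_distrib]
    refine Finset.sum_congr rfl ?_
    intro j _
    simp only [c, g, Sum.elim_inl, Sum.elim_inr]
    have h4 : (C (-1 / 4 : ℝ) : ℝ[X]) = - C (1 / 4) := by
      rw [← C_neg]
      congr 1
      norm_num
    have h5 : (C (1 / 4 : ℝ) : ℝ[X]) * 4 = 1 := by
      have : (4 : ℝ[X]) = C 4 := (map_ofNat C 4).symm
      rw [this, ← C_mul]
      norm_num
    rw [h4]
    linear_combination (- (p j * q j)) * h5
  have h2 := H F hF0 _ _ _ h1
  refine le_trans h2 (mul_le_mul_of_nonneg_left ?_ hκ.le)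
  push_cast
  rw [Equiv.sum_comp eq.symm (fun x => ((g x).support.card : ℝ)), Fintype.sum_sum_type,
    ← Finset.sum_add_distrib]
  refine Finset.sum_le_sum ?_
  intro j _
  simp only [g, Sum.elim_inl, Sum.elim_inr]
  have ha : (((p j + q j).support.card : ℕ) : ℝ) ≤ ((p j).support.card : ℝ) + (q j).support.card := by
    exact_mod_cast card_supp_add _ _
  have hb : (((p j - q j).support.card : ℕ) : ℝ) ≤ ((p j).support.card : ℝ) + (q j).support.card := by
    exact_mod_cast card_supp_sub _ _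
  linarith

/-- support of a sum of multiples of monomials -/
theorem card_supp_sum {A : Type} [Fintype A] (c : A → ℝ) (P : A → ℝ[X])
    (hP : ∀ a, (P a).support.card ≤ 1) :
    (∑ a, C (c a) * P a).support.card ≤ (univ.filter fun a => c a ≠ 0).card := by
  classical
  have h1 : ∑ a, C (c a) * P a = ∑ a ∈ univ.filter (fun a => c a ≠ 0), C (c a) * P a := by
    rw [Finset.sum_filter]
    refine Finset.sum_congr rfl ?_
    intro a _
    split_ifs with h
    · rfl
    · push Not at h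
      rw [h]
      simp
  rw [h1]
  have h2 : ∀ s : Finset A, (∑ a ∈ s, C (c a) * P a).support.card ≤ s.card := by
    intro s
    induction s using Finset.induction_on with
    | empty => simp
    | insert a s ha ih =>
      rw [Finset.sum_insert ha, Finset.card_insert_of_notMem ha]
      refine le_trans (card_supp_add _ _) ?_
      have h3 : (C (c a) * P a).support.card ≤ 1 := by
        refine le_trans (Finset.card_le_card ?_) (hP a)
        intro n hn
        rw [Polynomial.mem_support_iff] at hn ⊢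
        rw [Polynomial.coeff_C_mul] at hn
        exact right_ne_zero_of_mul hn
      omega
  exact h2 _

end Pool.Agent.Y953.SQ
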