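import Pool.Agent.Y953.SQ.Cnt
import Pool.Agent.Y953.SQ.Root

/-!
# The gadget, digits and monomials
-/

set_option autoImplicit false

namespace Pool.Agent.Y953.SQ

open Finset Polynomial

/-! ### The gadget -/

/-- the sum of two digits -/
def sg (a b : Fin 7) : Fin 13 := ⟨a.val + b.val, by omega⟩

/-- the eighteen cells of the gadget -/
def GG (a b : Fin 7) : Prop :=
  (a.val, b.val) ∈ [(0, 5), (0, 6), (1, 4), (1, 6), (2, 3), (2, 4), (2, 5), (3, 2), (3, 6),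
    (4, 1), (4, 2), (4, 5), (5, 0), (5, 2), (5, 4), (6, 0), (6, 1), (6, 3)]

instance (a b : Fin 7) : Decidable (GG a b) := by unfold GG; infer_instance

/-- the row part of the gadget -/
def UZ (a : Fin 7) (s : Fin 13) : ℤ :=
  ([[0, 0, 0, 0, 0, 0, 0, 0, 0, 0, 0, 0, 0],
    [0, 0, 0, 0, 0, 0, -1, 1, 0, 0, 0, 0, 0],
    [0, 0, 0, 0, 0, -1, 0, 1, 0, 0, 0, 0, 0],
    [0, 0, 0, 0, 0, 0, -1, 0, 0, 1, 0, 0, 0],
    [0, 0, 0, 0, 0, -1, 0, 0, 0, 1, 0, 0, 0],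
    [0, 0, 0, 0, 0, -1, -1, 1, 0, 1, 0, 0, 0],
    [0, 0, 0, 0, 0, -2, 0, 1, 0, 1, 0, 0, 0]].getD a.val []).getD s.val 0

/-- the column part of the gadget -/
def VZ (b : Fin 7) (s : Fin 13) : ℤ :=
  ([[0, 0, 0, 0, 0, 2, 1, -1, 0, -1, 0, 0, 0],
    [0, 0, 0, 0, 0, 2, 0, 0, 0, -1, 0, 0, 0],
    [0, 0, 0, 0, 0, 1, 1, 0, 0, -1, 0, 0, 0],
    [0, 0, 0, 0, 0, 2, 0, -1, 0, 0, 0, 0, 0],
    [0, 0, 0, 0, 0, 1, 1, -1, 0, 0, 0, 0, 0],
    [0, 0, 0, 0, 0, 1, 0, 0, 0, 0, 0, 0, 0],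
    [0, 0, 0, 0, 0, 0, 1, 0, 0, 0, 0, 0, 0]].getD b.val []).getD s.val 0

theorem gadgetZ : ∀ a b : Fin 7, GG a b → ∀ s : Fin 13,
    ((if s = sg a b then 1 else 0 : ℤ) - UZ a s - VZ b s) = 0 := by
  decide

theorem gadget (a b : Fin 7) (h : GG a b) (s : Fin 13) :
    Ker sg (fun a s => (UZ a s : ℝ)) (fun b s => (VZ b s : ℝ)) 2 a b s = 0 := by
  have h1 := gadgetZ a b h s
  have h2 : (((if s = sg a b then 1 else 0 : ℤ) - UZ a s - VZ b s : ℤ) : ℝ) = 0 := by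
    rw [h1]; simp
  unfold Ker
  rw [if_neg (by decide), if_neg (by decide)]
  push_cast at h2
  split_ifs at h2 ⊢ <;> simpa using h2

theorem gadget_card (w : ℝ) : (∑ x : Fin 7, ∑ y : Fin 7, if GG x y then w else 1) = 18 * w + 31 := by
  have h1 : ∀ x y : Fin 7, (if GG x y then w else 1) = (if GG x y then (1 : ℝ) else 0) * (w - 1) + 1 := by
    intro x y
    split_ifs <;> ring
  simp only [h1, Finset.sum_add_distrib, ← Finset.sum_mul]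
  have h2 : (∑ x : Fin 7, ∑ y : Fin 7, if GG x y then (1 : ℝ) else 0) = 18 := by
    have h3 : (∑ x : Fin 7, ∑ y : Fin 7, if GG x y then (1 : ℕ) else 0) = 18 := by decide
    have h4 := congrArg (fun n : ℕ => (n : ℝ)) h3
    push_cast at h4
    exact h4
  rw [h2]
  simp
  ring

/-! ### Digits -/

/-- the number with digits `a` -/
def num {k : ℕ} (d : ℕ) (a : Fin d → Fin k) : ℕ := ∑ i, (a i : ℕ) * 7 ^ (i : ℕ)

theorem num_add (d : ℕ) (a b : Fin d → Fin 7) :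
    num d (fun i => sg (a i) (b i)) = num d a + num d b := by
  unfold num sg
  rw [← Finset.sum_add_distrib]
  refine Finset.sum_congr rfl ?_
  intro i _
  ring

theorem sum_digits {A : Type} [AddCommMonoid A] (d : ℕ) (g : ℕ → A) :
    ∑ e ∈ range (7 ^ d * 7 ^ d), g e
      = ∑ a : Fin d → Fin 7, ∑ b : Fin d → Fin 7, g (num d a + 7 ^ d * num d b) := by
  rw [Finset.sum_range, ← Equiv.sum_comp finProdFinEquiv, Fintype.sum_prod_type, Finset.sum_comm,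
    ← Equiv.sum_comp finFunctionFinEquiv]
  refine Finset.sum_congr rfl ?_
  intro a _
  rw [← Equiv.sum_comp finFunctionFinEquiv]
  refine Finset.sum_congr rfl ?_
  intro b _
  congr 1

/-! ### The two families of monomials -/

/-- row monomials -/
noncomputable def PP (n M x : ℕ) : ℝ[X] :=
  C ((-1 : ℝ) ^ x * (M : ℝ) ^ (n * x ^ 2) / (M : ℝ) ^ (x ^ 2)) * X ^ x

/-- column monomials -/
noncomputable def QQ (n M y : ℕ) : ℝ[X] :=
  C ((-1 : ℝ) ^ (n * y) * (M : ℝ) ^ (n * y ^ 2) / (M : ℝ) ^ (n ^ 2 * y ^ 2)) * X ^ (n * y)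

theorem card_mono (c : ℝ) (n : ℕ) : (C c * X ^ n : ℝ[X]).support.card ≤ 1 :=
  Polynomial.card_support_C_mul_X_pow_le_one

theorem term_eq (n M x y : ℕ) (hM : 0 < M) :
    C ((-1 : ℝ) ^ (x + n * y) / (M : ℝ) ^ ((x + n * y) ^ 2)) * X ^ (x + n * y)
      = C (1 / (M : ℝ) ^ (n * (x + y) ^ 2)) * PP n M x * QQ n M y := by
  unfold PP QQ
  have hM' : (M : ℝ) ≠ 0 := by exact_mod_cast hM.ne'
  have h1 : ((-1 : ℝ) ^ (x + n * y) / (M : ℝ) ^ ((x + n * y) ^ 2))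
      = (1 / (M : ℝ) ^ (n * (x + y) ^ 2)) * ((-1 : ℝ) ^ x * (M : ℝ) ^ (n * x ^ 2) / (M : ℝ) ^ (x ^ 2))
        * ((-1 : ℝ) ^ (n * y) * (M : ℝ) ^ (n * y ^ 2) / (M : ℝ) ^ (n ^ 2 * y ^ 2)) := by
    have h2 : (M : ℝ) ^ (n * x ^ 2) * (M : ℝ) ^ (n * y ^ 2) * (M : ℝ) ^ ((x + n * y) ^ 2)
        = (M : ℝ) ^ (n * (x + y) ^ 2) * (M : ℝ) ^ (x ^ 2) * (M : ℝ) ^ (n ^ 2 * y ^ 2) := by
      rw [← pow_add, ← pow_add, ← pow_add, ← pow_add]
      congr 1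
      ring
    have hA : (M : ℝ) ^ (n * (x + y) ^ 2) ≠ 0 := pow_ne_zero _ hM'
    have hB : (M : ℝ) ^ (x ^ 2) ≠ 0 := pow_ne_zero _ hM'
    have hC : (M : ℝ) ^ (n ^ 2 * y ^ 2) ≠ 0 := pow_ne_zero _ hM'
    have hD : (M : ℝ) ^ ((x + n * y) ^ 2) ≠ 0 := pow_ne_zero _ hM'
    rw [pow_add (-1 : ℝ) x (n * y)]
    rw [div_mul_div_comm, div_mul_div_comm, div_eq_div_iff hD (by positivity)]
    linear_combination (-((-1 : ℝ) ^ x * (-1 : ℝ) ^ (n * y))) * h2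
  rw [h1, C_mul, C_mul, pow_add]
  ring

end Pool.Agent.Y953.SQ
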