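import Mathlib

/-!
# Matrices `f (σ a b)` on product sets are sums of few products and a sparse matrix

`R`, `C`, `S` are finite types, `σ : R → C → S`.  Suppose that for the cells `(a, b)` of a set `G`
the identity `1[s = σ a b] = U a s + V b s` holds for all `s`.  Then for every function `f` on `S ^ ι`
the matrix `f (σ (a, b))`, `a ∈ R ^ ι`, `b ∈ C ^ ι`, is a sum of products
`χ_γ(a) h_γ(b)` (over the `γ` with many zero coordinates), products `χ_γ(b) h'_γ(a)`, and a matrix which
is supported on the pairs `(a, b)` with few coordinates in `G`.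
-/

set_option autoImplicit false

namespace Pool.Agent.Y953.SQ

open Finset

/-- the characteristic functions: `1` for the base point, and the indicator function of `γ` otherwise -/
noncomputable def chi {R : Type} [DecidableEq R] (z γ a : R) : ℝ :=
  if γ = z then 1 else if a = γ then 1 else 0

/-- coefficients of a function with respect to the `chi` -/
noncomputable def hat {R : Type} [DecidableEq R] (z : R) (K : R → ℝ) (γ : R) : ℝ :=
  if γ = z then K z else K γ - K z

theorem chi_expand {R : Type} [Fintype R] [DecidableEq R] (z : R) (K : R → ℝ) (a : R) :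
    K a = ∑ γ, chi z γ a * hat z K γ := by
  classical
  rw [← Finset.add_sum_erase _ _ (Finset.mem_univ z)]
  have h0 : chi z z a * hat z K z = K z := by simp [chi, hat]
  rw [h0]
  have h1 : ∑ γ ∈ Finset.univ.erase z, chi z γ a * hat z K γ
      = ∑ γ ∈ Finset.univ.erase z, (if a = γ then (K γ - K z) else 0) := by
    refine Finset.sum_congr rfl ?_
    intro γ hγ
    have hne : γ ≠ z := (Finset.mem_erase.1 hγ).1
    by_cases ha : a = γ
    · simp [chi, hat, hne, ha]
    · simp [chi, hat, hne, ha]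
  rw [h1]
  by_cases haz : a = z
  · subst haz
    rw [Finset.sum_ite_eq]
    simp
  · rw [Finset.sum_ite_eq]
    simp [haz]

variable {ι R C S : Type} [Fintype ι] [DecidableEq ι] [Fintype R] [DecidableEq R]
  [Fintype C] [DecidableEq C] [Fintype S] [DecidableEq S]

/-- the three kernels -/
noncomputable def Ker (σ : R → C → S) (U : R → S → ℝ) (V : C → S → ℝ) (τ : Fin 3) (a : R) (b : C)
    (s : S) : ℝ :=
  if τ = 0 then U a s else if τ = 1 then V b s else ((if s = σ a b then 1 else 0) - U a s - V b s)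

theorem Ker_sum (σ : R → C → S) (U : R → S → ℝ) (V : C → S → ℝ) (a : R) (b : C) (s : S) :
    ∑ τ, Ker σ U V τ a b s = if s = σ a b then 1 else 0 := by
  rw [Fin.sum_univ_three]
  simp [Ker]

/-- one term of the expansion -/
noncomputable def Trm (σ : R → C → S) (U : R → S → ℝ) (V : C → S → ℝ) (f : (ι → S) → ℝ)
    (τ : ι → Fin 3) (a : ι → R) (b : ι → C) : ℝ :=
  ∑ s : ι → S, f s * ∏ i, Ker σ U V (τ i) (a i) (b i) (s i)

theorem expand (σ : R → C → S) (U : R → S → ℝ) (V : C → S → ℝ) (f : (ι → S) → ℝ)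
    (a : ι → R) (b : ι → C) :
    f (fun i => σ (a i) (b i)) = ∑ τ : ι → Fin 3, Trm σ U V f τ a b := by
  classical
  unfold Trm
  rw [Finset.sum_comm]
  have h1 : ∀ s : ι → S, ∑ τ : ι → Fin 3, f s * ∏ i, Ker σ U V (τ i) (a i) (b i) (s i)
      = f s * (if s = fun i => σ (a i) (b i) then 1 else 0) := by
    intro s
    rw [← Finset.mul_sum]
    congr 1
    have h2 : ∏ i, ∑ τ : Fin 3, Ker σ U V τ (a i) (b i) (s i)
        = ∑ τ : ι → Fin 3, ∏ i, Ker σ U V (τ i) (a i) (b i) (s i) := by
      rw [Finset.prod_univ_sum, Fintype.piFinset_univ]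
    rw [← h2]
    simp only [Ker_sum]
    by_cases hs : s = fun i => σ (a i) (b i)
    · subst hs
      simp
    · rw [if_neg hs]
      have : ∃ i, s i ≠ σ (a i) (b i) := by
        by_contra hcon
        push Not at hcon
        exact hs (funext hcon)
      obtain ⟨i, hi⟩ := this
      exact Finset.prod_eq_zero (Finset.mem_univ i) (if_neg hi)
  rw [Finset.sum_congr rfl (fun s _ => h1 s)]
  simp

/-- expansion of a term in the row variable -/
theorem Trm_row (σ : R → C → S) (U : R → S → ℝ) (V : C → S → ℝ) (f : (ι → S) → ℝ) (z : R)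
    (τ : ι → Fin 3) (a : ι → R) (b : ι → C) :
    Trm σ U V f τ a b = ∑ γ : ι → R, (∏ i, chi z (γ i) (a i)) *
      ∑ s : ι → S, f s * ∏ i, hat z (fun a' => Ker σ U V (τ i) a' (b i) (s i)) (γ i) := by
  classical
  unfold Trm
  simp only [Finset.mul_sum]
  rw [Finset.sum_comm]
  refine Finset.sum_congr rfl ?_
  intro s _
  have h2 : ∏ i, Ker σ U V (τ i) (a i) (b i) (s i)
      = ∑ γ : ι → R, ∏ i, (chi z (γ i) (a i) *
          hat z (fun a' => Ker σ U V (τ i) a' (b i) (s i)) (γ i)) := by
    have h3 : ∏ i, Ker σ U V (τ i) (a i) (b i) (s i)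
        = ∏ i, ∑ γ : R, (chi z γ (a i) * hat z (fun a' => Ker σ U V (τ i) a' (b i) (s i)) γ) := by
      refine Finset.prod_congr rfl ?_
      intro i _
      exact chi_expand z (fun a' => Ker σ U V (τ i) a' (b i) (s i)) (a i)
    rw [h3, Finset.prod_univ_sum, Fintype.piFinset_univ]
  rw [h2, Finset.mul_sum]
  refine Finset.sum_congr rfl ?_
  intro γ _
  rw [Finset.prod_mul_distrib]
  ring

/-- expansion of a term in the column variable -/
theorem Trm_col (σ : R → C → S) (U : R → S → ℝ) (V : C → S → ℝ) (f : (ι → S) → ℝ) (z : C)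
    (τ : ι → Fin 3) (a : ι → R) (b : ι → C) :
    Trm σ U V f τ a b = ∑ γ : ι → C, (∏ i, chi z (γ i) (b i)) *
      ∑ s : ι → S, f s * ∏ i, hat z (fun b' => Ker σ U V (τ i) (a i) b' (s i)) (γ i) := by
  classical
  unfold Trm
  simp only [Finset.mul_sum]
  rw [Finset.sum_comm]
  refine Finset.sum_congr rfl ?_
  intro s _
  have h2 : ∏ i, Ker σ U V (τ i) (a i) (b i) (s i)
      = ∑ γ : ι → C, ∏ i, (chi z (γ i) (b i) *
          hat z (fun b' => Ker σ U V (τ i) (a i) b' (s i)) (γ i)) := by
    have h3 : ∏ i, Ker σ U V (τ i) (a i) (b i) (s i)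
        = ∏ i, ∑ γ : C, (chi z γ (b i) * hat z (fun b' => Ker σ U V (τ i) (a i) b' (s i)) γ) := by
      refine Finset.prod_congr rfl ?_
      intro i _
      exact chi_expand z (fun b' => Ker σ U V (τ i) (a i) b' (s i)) (b i)
    rw [h3, Finset.prod_univ_sum, Fintype.piFinset_univ]
  rw [h2, Finset.mul_sum]
  refine Finset.sum_congr rfl ?_
  intro γ _
  rw [Finset.prod_mul_distrib]
  ring

/-- **The decomposition.** -/
theorem decomp (σ : R → C → S) (U : R → S → ℝ) (V : C → S → ℝ) (G : R → C → Prop)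
    [∀ a b, Decidable (G a b)]
    (hG : ∀ a b, G a b → ∀ s, Ker σ U V 2 a b s = 0) (f : (ι → S) → ℝ) (zr : R) (zc : C)
    (m : ℕ) :
    ∃ (h : (ι → R) → (ι → C) → ℝ) (h' : (ι → C) → (ι → R) → ℝ) (e : (ι → R) → (ι → C) → ℝ),
      (∀ γ b, h γ b ≠ 0 → m ≤ (univ.filter fun i => γ i = zr).card) ∧
      (∀ γ a, h' γ a ≠ 0 → m ≤ (univ.filter fun i => γ i = zc).card) ∧
      (∀ a b, e a b ≠ 0 → (univ.filter fun i => G (a i) (b i)).card < m + m) ∧
      ∀ a b, f (fun i => σ (a i) (b i)) =
        ∑ γ : ι → R, (∏ i, chi zr (γ i) (a i)) * h γ b +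
        ∑ γ : ι → C, (∏ i, chi zc (γ i) (b i)) * h' γ a + e a b := by
  classical
  set T1 : Finset (ι → Fin 3) := univ.filter fun τ => m ≤ (univ.filter fun i => τ i = 1).card
    with hT1
  set T2 : Finset (ι → Fin 3) := univ.filter fun τ =>
    ¬ m ≤ (univ.filter fun i => τ i = 1).card ∧ m ≤ (univ.filter fun i => τ i = 0).card with hT2
  set T3 : Finset (ι → Fin 3) := univ.filter fun τ =>
    ¬ m ≤ (univ.filter fun i => τ i = 1).card ∧ ¬ m ≤ (univ.filter fun i => τ i = 0).card with hT3
  refine ⟨fun γ b => ∑ τ ∈ T1, ∑ s : ι → S, f s *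
      ∏ i, hat zr (fun a' => Ker σ U V (τ i) a' (b i) (s i)) (γ i),
    fun γ a => ∑ τ ∈ T2, ∑ s : ι → S, f s *
      ∏ i, hat zc (fun b' => Ker σ U V (τ i) (a i) b' (s i)) (γ i),
    fun a b => ∑ τ ∈ T3, Trm σ U V f τ a b, ?_, ?_, ?_, ?_⟩
  · intro γ b hne
    obtain ⟨τ, hτ, hne2⟩ := Finset.exists_ne_zero_of_sum_ne_zero hne
    obtain ⟨s, _, hne3⟩ := Finset.exists_ne_zero_of_sum_ne_zero hne2
    have hprod : ∏ i, hat zr (fun a' => Ker σ U V (τ i) a' (b i) (s i)) (γ i) ≠ 0 :=
      right_ne_zero_of_mul hne3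
    rw [hT1, Finset.mem_filter] at hτ
    refine le_trans hτ.2 (Finset.card_le_card ?_)
    intro i hi
    rw [Finset.mem_filter] at hi ⊢
    refine ⟨hi.1, ?_⟩
    by_contra hcon
    apply hprod
    refine Finset.prod_eq_zero (Finset.mem_univ i) ?_
    simp [hat, hcon, Ker, hi.2]
  · intro γ a hne
    obtain ⟨τ, hτ, hne2⟩ := Finset.exists_ne_zero_of_sum_ne_zero hne
    obtain ⟨s, _, hne3⟩ := Finset.exists_ne_zero_of_sum_ne_zero hne2
    have hprod : ∏ i, hat zc (fun b' => Ker σ U V (τ i) (a i) b' (s i)) (γ i) ≠ 0 :=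
      right_ne_zero_of_mul hne3
    rw [hT2, Finset.mem_filter] at hτ
    refine le_trans hτ.2.2 (Finset.card_le_card ?_)
    intro i hi
    rw [Finset.mem_filter] at hi ⊢
    refine ⟨hi.1, ?_⟩
    by_contra hcon
    apply hprod
    refine Finset.prod_eq_zero (Finset.mem_univ i) ?_
    simp [hat, hcon, Ker, hi.2]
  · intro a b hne
    obtain ⟨τ, hτ, hne2⟩ := Finset.exists_ne_zero_of_sum_ne_zero hne
    unfold Trm at hne2
    obtain ⟨s, _, hne3⟩ := Finset.exists_ne_zero_of_sum_ne_zero hne2
    have hprod : ∏ i, Ker σ U V (τ i) (a i) (b i) (s i) ≠ 0 :=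
      right_ne_zero_of_mul hne3
    rw [hT3, Finset.mem_filter] at hτ
    obtain ⟨_, h1, h0⟩ := hτ
    have hsub : (univ.filter fun i => G (a i) (b i)) ⊆
        (univ.filter fun i => τ i = 1) ∪ (univ.filter fun i => τ i = 0) := by
      intro i hi
      rw [Finset.mem_filter] at hi
      rw [Finset.mem_union, Finset.mem_filter, Finset.mem_filter]
      by_contra hcon
      push Not at hcon
      have h2 : τ i = 2 := by
        have ha := hcon.1 (Finset.mem_univ i)
        have hb := hcon.2 (Finset.mem_univ i)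
        have : ∀ x : Fin 3, x ≠ 1 → x ≠ 0 → x = 2 := by decide
        exact this _ ha hb
      apply hprod
      refine Finset.prod_eq_zero (Finset.mem_univ i) ?_
      rw [h2]
      exact hG _ _ hi.2 _
    have hc := Finset.card_le_card hsub
    have hu := Finset.card_union_le (univ.filter fun i => τ i = 1) (univ.filter fun i => τ i = 0)
    omega
  · intro a b
    rw [expand σ U V f a b]
    have hsplit : ∑ τ : ι → Fin 3, Trm σ U V f τ a b
        = ∑ τ ∈ T1, Trm σ U V f τ a b + ∑ τ ∈ T2, Trm σ U V f τ a b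
          + ∑ τ ∈ T3, Trm σ U V f τ a b := by
      rw [← Finset.sum_filter_add_sum_filter_not (univ : Finset (ι → Fin 3))
        (fun τ => m ≤ (univ.filter fun i => τ i = 1).card)]
      rw [← Finset.sum_filter_add_sum_filter_not
        ((univ : Finset (ι → Fin 3)).filter
          (fun τ => ¬ m ≤ (univ.filter fun i => τ i = 1).card))
        (fun τ => m ≤ (univ.filter fun i => τ i = 0).card)]
      rw [Finset.filter_filter, Finset.filter_filter, ← hT1, ← hT2, ← hT3]
      ring
    rw [hsplit]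
    congr 1
    congr 1
    · simp only [Finset.mul_sum (s := T1)]
      rw [Finset.sum_comm]
      refine Finset.sum_congr rfl ?_
      intro τ _
      exact Trm_row σ U V f zr τ a b
    · simp only [Finset.mul_sum (s := T2)]
      rw [Finset.sum_comm]
      refine Finset.sum_congr rfl ?_
      intro τ _
      exact Trm_col σ U V f zc τ a b

end Pool.Agent.Y953.SQ
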