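import Pool.Agent.Y953.SQ.Gad
import Pool.Agent.Y953.SQ.Abs

/-!
# Real polynomials with more real roots than any multiple of the sum-of-squares support size
-/

set_option autoImplicit false
set_option maxHeartbeats 1000000

namespace Pool.Agent.Y953.SQ

open Finset Polynomial

/-- the digit vectors -/
abbrev DD (d : ℕ) : Type := Fin d → Fin 7

theorem TF_eq (d : ℕ) :
    TF (7 ^ d * 7 ^ d) = ∑ a : DD d, ∑ b : DD d,
      C (1 / ((7 ^ d * 7 ^ d : ℕ) : ℝ) ^ (7 ^ d * (num d (fun i => sg (a i) (b i))) ^ 2))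
        * PP (7 ^ d) (7 ^ d * 7 ^ d) (num d a) * QQ (7 ^ d) (7 ^ d * 7 ^ d) (num d b) := by
  unfold TF
  rw [sum_digits]
  refine Finset.sum_congr rfl (fun a _ => Finset.sum_congr rfl (fun b _ => ?_))
  rw [term_eq (7 ^ d) (7 ^ d * 7 ^ d) (num d a) (num d b) (by positivity), num_add]

theorem chi_support (d : ℕ) : ∑ γ : DD d,
    ((univ.filter fun a : DD d => (∏ i, chi (0 : Fin 7) (γ i) (a i)) ≠ 0).card : ℝ) = 13 ^ d :=
  cnt_chi d 0

theorem zero_count (t : ℕ) :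
    ((univ.filter fun γ : DD (6 * t) => t ≤ (univ.filter fun i => γ i = (0 : Fin 7)).card).card : ℝ)
      ≤ (((36 / 5 : ℝ) ^ 6 / (6 / 5))) ^ t := by
  have h := cnt_ge (6 * t) t (fun x : Fin 7 => x = 0) (6 / 5 : ℝ) (by norm_num)
  have h1 : (∑ x : Fin 7, if x = (0 : Fin 7) then (6 / 5 : ℝ) else 1) = 36 / 5 := by
    rw [← Finset.add_sum_erase _ _ (Finset.mem_univ (0 : Fin 7)), if_pos rfl,
      Finset.sum_congr rfl (g := fun _ => (1 : ℝ)) (fun γ hγ => if_neg (Finset.mem_erase.1 hγ).1),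
      Finset.sum_const, Finset.card_erase_of_mem (Finset.mem_univ _)]
    simp
    norm_num
  rw [h1, pow_mul] at h
  rw [div_pow, le_div_iff₀ (by positivity)]
  exact h

theorem bad_count (t : ℕ) :
    (∑ a : DD (6 * t), ∑ b : DD (6 * t),
      (if (univ.filter fun i => GG (a i) (b i)).card < t + t then (1 : ℝ) else 0))
      ≤ ((46 : ℝ) ^ 6 * (36 / 25)) ^ t := by
  have h := cnt_lt (6 * t) (t + t) GG (5 / 6 : ℝ) (by norm_num) (by norm_num)
  rw [gadget_card, pow_mul] at h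
  have h2 : ((18 * (5 / 6) + 31 : ℝ)) = 46 := by norm_num
  rw [h2] at h
  have h3 : ((5 / 6 : ℝ) ^ (t + t)) * (36 / 25) ^ t = 1 := by
    rw [← two_mul, pow_mul, ← mul_pow]
    norm_num
  rw [mul_pow]
  have h4 : (0 : ℝ) < (36 / 25) ^ t := by positivity
  calc _ = (∑ a : DD (6 * t), ∑ b : DD (6 * t),
      (if (univ.filter fun i => GG (a i) (b i)).card < t + t then (1 : ℝ) else 0)) *
        ((5 / 6 : ℝ) ^ (t + t) * (36 / 25) ^ t) := by rw [h3, mul_one]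
    _ = ((∑ a : DD (6 * t), ∑ b : DD (6 * t),
      (if (univ.filter fun i => GG (a i) (b i)).card < t + t then (1 : ℝ) else 0)) *
        (5 / 6 : ℝ) ^ (t + t)) * (36 / 25) ^ t := by ring
    _ ≤ _ := mul_le_mul_of_nonneg_right h h4.le

/-- supports of the coefficient functions -/
theorem supp_bound {d m : ℕ} (h : DD d → DD d → ℝ)
    (hh : ∀ γ b, h γ b ≠ 0 → m ≤ (univ.filter fun i => γ i = (0 : Fin 7)).card) :
    ∑ γ : DD d, ((univ.filter fun b => h γ b ≠ 0).card : ℝ)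
      ≤ ((univ.filter fun γ : DD d => m ≤ (univ.filter fun i => γ i = (0 : Fin 7)).card).card : ℝ)
        * 7 ^ d := by
  classical
  have h1 : ∀ γ : DD d, ((univ.filter fun b => h γ b ≠ 0).card : ℝ)
      ≤ if m ≤ (univ.filter fun i => γ i = (0 : Fin 7)).card then (7 : ℝ) ^ d else 0 := by
    intro γ
    split_ifs with hm
    · have : (univ.filter fun b : DD d => h γ b ≠ 0).card ≤ 7 ^ d := by
        refine le_trans (Finset.card_filter_le _ _) ?_
        simp [DD]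
      exact_mod_cast this
    · have : (univ.filter fun b : DD d => h γ b ≠ 0) = ∅ := by
        rw [Finset.filter_eq_empty_iff]
        intro b _ hb
        exact hm (hh γ b hb)
      rw [this]
      simp
  refine le_trans (Finset.sum_le_sum (fun γ _ => h1 γ)) ?_
  rw [← Finset.sum_filter, Finset.sum_const, nsmul_eq_mul]

theorem final_ineq (x1 x2 x3 x4 x5 c A1 A2 A3 : ℝ) (h1 : x1 = A1) (h2 : x2 ≤ c) (h3 : x3 = A1)
    (h4 : x4 ≤ c) (h5 : x5 ≤ A3) (hc : c ≤ A2) :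
    2 * x1 + 2 * x2 + 2 * x3 + 2 * x4 + 4 * x5 ≤ 4 * ((A1 + A2) + A3) := by
  linarith

/-- the key estimate -/
theorem key (κ : ℝ) (hκ : 0 < κ)
    (H : ∀ f : ℝ[X], f ≠ 0 → ∀ (s : ℕ) (c : Fin s → ℝ) (g : Fin s → ℝ[X]),
      f = ∑ i, C (c i) * g i ^ 2 →
        (f.roots.toFinset.card : ℝ) ≤ κ * ((∑ i, (g i).support.card : ℕ) : ℝ)) (t : ℕ) (ht : 1 ≤ t) :
    ((49 : ℝ) ^ 6) ^ t - 1 ≤ κ * (4 * ((((13 : ℝ) ^ 6) ^ t
      + (((36 / 5 : ℝ) ^ 6 / (6 / 5)) * 7 ^ 6) ^ t) + ((46 : ℝ) ^ 6 * (36 / 25)) ^ t)) := by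
  classical
  obtain ⟨h, h', e, hh, hh', he, hdec⟩ := decomp (ι := Fin (6 * t)) sg (fun a s => (UZ a s : ℝ))
    (fun b s => (VZ b s : ℝ)) GG (fun a b hab s => gadget a b hab s)
    (fun s => 1 / ((7 ^ (6 * t) * 7 ^ (6 * t) : ℕ) : ℝ) ^ (7 ^ (6 * t) * (num (6 * t) s) ^ 2))
    (0 : Fin 7) (0 : Fin 7) t
  have hn1 : 7 ≤ 7 ^ (6 * t) := by
    calc 7 = 7 ^ 1 := by norm_num
      _ ≤ 7 ^ (6 * t) := Nat.pow_le_pow_right (by norm_num) (by omega)
  have hM2 : 2 ≤ 7 ^ (6 * t) * 7 ^ (6 * t) := by nlinarith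
  have hb := bound_abs κ hκ H (fun a : DD (6 * t) => PP (7 ^ (6 * t)) (7 ^ (6 * t) * 7 ^ (6 * t))
      (num (6 * t) a)) (fun b : DD (6 * t) => QQ (7 ^ (6 * t)) (7 ^ (6 * t) * 7 ^ (6 * t))
      (num (6 * t) b)) (fun a => card_mono _ _) (fun b => card_mono _ _)
    (fun γ a => ∏ i, chi (0 : Fin 7) (γ i) (a i)) h (fun γ b => ∏ i, chi (0 : Fin 7) (γ i) (b i)) h' e
    _ hdec (by
      rw [← TF_eq]
      exact TF_ne _ (by omega))
  rw [← TF_eq] at hb
  have hroots := TF_roots _ hM2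
  have hroots' : ((49 : ℝ) ^ 6) ^ t - 1 ≤
      ((TF (7 ^ (6 * t) * 7 ^ (6 * t))).roots.toFinset.card : ℝ) := by
    have h1 : ((7 ^ (6 * t) * 7 ^ (6 * t) - 1 : ℕ) : ℝ) ≤
        ((TF (7 ^ (6 * t) * 7 ^ (6 * t))).roots.toFinset.card : ℝ) := by exact_mod_cast hroots
    rw [Nat.cast_sub (by omega)] at h1
    push_cast at h1
    have h2 : ((49 : ℝ) ^ 6) ^ t = 7 ^ (6 * t) * 7 ^ (6 * t) := by
      rw [← pow_mul, ← mul_pow]
      norm_num
    rw [h2]
    exact h1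
  refine le_trans hroots' (le_trans hb (mul_le_mul_of_nonneg_left ?_ hκ.le))
  have hz := zero_count t
  have s1 := chi_support (6 * t)
  have s2 := supp_bound h hh
  have s3 := supp_bound h' hh'
  have s4 : (∑ a : DD (6 * t), ∑ b : DD (6 * t), (if e a b = 0 then (0 : ℝ) else 1))
      ≤ ((46 : ℝ) ^ 6 * (36 / 25)) ^ t := by
    refine le_trans ?_ (bad_count t)
    refine Finset.sum_le_sum (fun a _ => Finset.sum_le_sum (fun b _ => ?_))
    split_ifs with h0 h1 h1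
    · norm_num
    · norm_num
    · norm_num
    · exact absurd (he a b h0) h1
  have s5 : ((univ.filter fun γ : DD (6 * t) =>
      t ≤ (univ.filter fun i => γ i = (0 : Fin 7)).card).card : ℝ) * 7 ^ (6 * t)
      ≤ (((36 / 5 : ℝ) ^ 6 / (6 / 5)) * 7 ^ 6) ^ t := by
    rw [mul_pow, ← pow_mul]
    exact mul_le_mul_of_nonneg_right hz (by positivity)
  have s6 : ((13 : ℝ)) ^ (6 * t) = ((13 : ℝ) ^ 6) ^ t := by rw [pow_mul]
  rw [s6] at s1
  exact final_ineq _ _ _ _ _ _ _ _ _ s1 s2 s1 s3 s4 s5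

/-- **There is no linear bound.** -/
theorem no_linear_bound :
    ¬ (∃ κ : ℝ, 0 < κ ∧
      ∀ f : Polynomial ℝ, f ≠ 0 →
        ∀ (s : ℕ) (c : Fin s → ℝ) (g : Fin s → Polynomial ℝ),
          f = ∑ i, Polynomial.C (c i) * g i ^ 2 →
            (f.roots.toFinset.card : ℝ) ≤ κ * ((∑ i, (g i).support.card : ℕ) : ℝ)) := by
  rintro ⟨κ, hκ, H⟩
  have hk := key κ hκ H
  set B : ℝ := (49 : ℝ) ^ 6 with hB
  set A1 : ℝ := (13 : ℝ) ^ 6 with hA1
  set A2 : ℝ := ((36 / 5 : ℝ) ^ 6 / (6 / 5)) * 7 ^ 6 with hA2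
  set A3 : ℝ := (46 : ℝ) ^ 6 * (36 / 25) with hA3
  have hBpos : 0 < B := by rw [hB]; positivity
  have t1 : Filter.Tendsto (fun t : ℕ => (A1 / B) ^ t) Filter.atTop (nhds 0) := by
    apply tendsto_pow_atTop_nhds_zero_of_lt_one
    · rw [hA1, hB]; positivity
    · rw [hA1, hB]; norm_num
  have t2 : Filter.Tendsto (fun t : ℕ => (A2 / B) ^ t) Filter.atTop (nhds 0) := by
    apply tendsto_pow_atTop_nhds_zero_of_lt_one
    · rw [hA2, hB]; positivity
    · rw [hA2, hB]; norm_num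
  have t3 : Filter.Tendsto (fun t : ℕ => (A3 / B) ^ t) Filter.atTop (nhds 0) := by
    apply tendsto_pow_atTop_nhds_zero_of_lt_one
    · rw [hA3, hB]; positivity
    · rw [hA3, hB]; norm_num
  have t4 : Filter.Tendsto (fun t : ℕ => (1 / B) ^ t) Filter.atTop (nhds 0) := by
    apply tendsto_pow_atTop_nhds_zero_of_lt_one
    · rw [hB]; positivity
    · rw [hB]; norm_num
  have tt : Filter.Tendsto (fun t : ℕ => κ * (4 * (((A1 / B) ^ t + (A2 / B) ^ t) + (A3 / B) ^ t))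
      + (1 / B) ^ t) Filter.atTop (nhds (κ * (4 * ((0 + 0) + 0)) + 0)) :=
    ((((t1.add t2).add t3).const_mul 4).const_mul κ).add t4
  have hge : ∀ᶠ t : ℕ in Filter.atTop,
      (1 : ℝ) ≤ κ * (4 * (((A1 / B) ^ t + (A2 / B) ^ t) + (A3 / B) ^ t)) + (1 / B) ^ t := by
    filter_upwards [Filter.eventually_ge_atTop 1] with t ht
    have h1 := hk t ht
    have hBt : 0 < B ^ t := pow_pos hBpos t
    simp only [div_pow, one_pow]
    have h2 : κ * (4 * ((A1 ^ t / B ^ t + A2 ^ t / B ^ t) + A3 ^ t / B ^ t)) + 1 / B ^ t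
        = (κ * (4 * ((A1 ^ t + A2 ^ t) + A3 ^ t)) + 1) / B ^ t := by
      field_simp
    rw [h2, le_div_iff₀ hBt]
    linarith
  have := ge_of_tendsto tt hge
  norm_num at this

end Pool.Agent.Y953.SQ
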